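import Pool.Agent.Lib.MP_8d00da_gt.h42k.RC5
import Pool.Agent.Lib.MP_8d00da_gt.h42k.S6b

/-!
# (Z2) The `L¹` bound for the covariance with a test function (`D²V ≥ κ`)
-/

namespace Pool.Agent.Lib.MP_8d00da_gt.h42k

open MeasureTheory Set Filter
open scoped Topology NNReal ENNReal ContDiff

set_option linter.unusedSectionVars false
set_option linter.unusedVariables false

variable {ι : Type*} [Fintype ι] [DecidableEq ι]

variable {κ M : ℝ} {V f : (ι → ℝ) → ℝ}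

private theorem ZA1_cs (u v : ι → ℝ) {a b : ℝ} (hu : sq u ≤ a) (hv : sq v = b) :
    dt u v ≤ √a * √b := by
  have h1 := dt_sq_le u v
  have h0 := sq_nn u
  rw [← Real.sqrt_mul (h0.trans hu)]
  refine Real.le_sqrt_of_sq_le (h1.trans ?_)
  rw [← hv]
  exact mul_le_mul_of_nonneg_right hu (sq_nn v)

/-- `κ |Cov_V(f,x)| ≤ E|∇f|` for `D²V ≥ κ` (`trace_ineq` with `F_k = u_k f`). -/
theorem cov_l1 (H : Nice κ M V) (hf : Cc f) :
    κ * √(∑ i, cov V f (fun x => x i) ^ 2) ≤ ex V (fun x => √(gs f x)) := by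
  obtain ⟨c, hc⟩ : ∃ c : ι → ℝ, c = fun i => cov V f (fun x => x i) := ⟨_, rfl⟩
  obtain ⟨S, hS⟩ : ∃ S : ℝ, S = ∑ i, c i ^ 2 := ⟨_, rfl⟩
  have hS' : ∑ i, cov V f (fun x => x i) ^ 2 = S := by
    rw [hS, hc]
  have hS0 : 0 ≤ S := by
    rw [hS]
    exact Finset.sum_nonneg fun i _ => sq_nonneg _
  rw [hS']
  rcases hS0.eq_or_lt with h0 | h0
  · rw [← h0, Real.sqrt_zero, mul_zero]
    exact ex_nonneg V fun x => Real.sqrt_nonneg _
  have hr : 0 < √S := Real.sqrt_pos.2 h0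
  obtain ⟨u, hu⟩ : ∃ u : ι → ℝ, u = fun i => (√S)⁻¹ * c i := ⟨_, rfl⟩
  have hu1 : sq u = 1 := by
    rw [hu, sq_smul, show sq c = S from hS.symm, inv_pow, Real.sq_sqrt hS0]
    exact inv_mul_cancel₀ h0.ne'
  have hF : ∀ k, Cc (fun x => u k * f x) := fun k =>
    ⟨contDiff_const.mul hf.smooth, hf.supp.mul_left⟩
  have hdf : Differentiable ℝ f := hf.smooth.differentiable (by simp)
  have h1 := trace_ineq H (F := fun k x => u k * f x) hF (g := fun x => √(gs f x))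
    hf.t1.gst0.sqrt (fun x B hB => by
      have e1 : mp B (DF (fun k x => u k * f x) x) =
          dt (B.transpose.mulVec u) (fun j => pd j f x) := by
        unfold mp DF dt Matrix.mulVec dotProduct
        simp only [Matrix.of_apply, Matrix.transpose_apply]
        rw [Finset.sum_comm]
        refine Finset.sum_congr rfl fun j _ => ?_
        rw [Finset.sum_mul]
        refine Finset.sum_congr rfl fun i _ => ?_
        rw [pd_cmul hdf]
        ring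
      rw [e1]
      have h2 := ZA1_cs (B.transpose.mulVec u) (fun j => pd j f x) (a := 1) (b := gs f x)
        ((hB.tr u).trans hu1.le) rfl
      rwa [Real.sqrt_one, one_mul] at h2)
  have h2 : ∑ k, cov V (fun x => u k * f x) (fun x => x k) = √S := by
    have h3 : ∀ k, cov V (fun x => u k * f x) (fun x => x k) = (√S)⁻¹ * c k ^ 2 := by
      intro k
      rw [cov_cmul, hu, hc]
      ring
    rw [Finset.sum_congr rfl fun k _ => h3 k, ← Finset.mul_sum, ← hS]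
    rw [inv_mul_eq_div, Real.div_sqrt]
  rw [h2] at h1
  exact h1

/-- `|Cov_V(f,x)|² ≤ b κ^{-1/2} κ^{-1} E|∇f|` if `Var f ≤ b²`. -/
theorem cov_l1_sq' (H : Nice κ M V) (hf : Cc f) {b : ℝ} (hb0 : 0 ≤ b) (h3 : var V f ≤ b ^ 2) :
    ∑ i, cov V f (fun x => x i) ^ 2 ≤ b * ((√κ)⁻¹ * κ⁻¹) * ex V (fun x => √(gs f x)) := by
  have hκ := H.kpos
  have hsκ : 0 < √κ := Real.sqrt_pos.2 hκ
  obtain ⟨S, hS⟩ : ∃ S : ℝ, S = ∑ i, cov V f (fun x => x i) ^ 2 := ⟨_, rfl⟩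
  have hS0 : 0 ≤ S := by
    rw [hS]
    exact Finset.sum_nonneg fun i _ => sq_nonneg _
  have h1 := cov_l1 H hf
  have h2 := CLe.cov_sq H (s6_CLe_kappa H) hf.t1.t0
  rw [← hS] at h1 h2 ⊢
  have h5 : S ≤ (b * (√κ)⁻¹) ^ 2 := by
    refine h2.trans ?_
    rw [mul_pow, inv_pow, Real.sq_sqrt hκ.le, one_div, mul_comm]
    exact mul_le_mul_of_nonneg_right h3 (inv_nonneg.2 hκ.le)
  have h6 : √S ≤ b * (√κ)⁻¹ := Real.sqrt_le_iff.2 ⟨by positivity, h5⟩
  have h7 : √S ≤ κ⁻¹ * ex V (fun x => √(gs f x)) := by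
    rw [inv_mul_eq_div, le_div_iff₀ hκ, mul_comm]
    exact h1
  calc S = √S * √S := (Real.mul_self_sqrt hS0).symm
    _ ≤ (b * (√κ)⁻¹) * (κ⁻¹ * ex V (fun x => √(gs f x))) :=
        mul_le_mul h6 h7 (Real.sqrt_nonneg _) (by positivity)
    _ = _ := by ring

theorem var_le_sq_of_abs (H : Nice κ M V) (hf : T0 f) {b : ℝ} (hb : ∀ x, |f x| ≤ b) :
    var V f ≤ b ^ 2 := by
  refine (var_le H hf 0).trans ?_
  have h4 := ex_mono H ((hf.sub (T0.const 0)).pow 2) (T0.const (b ^ 2)) (fun x => by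
    rw [sub_zero, ← sq_abs]
    exact pow_le_pow_left₀ (abs_nonneg _) (hb x) 2)
  rwa [ex_const H] at h4

theorem var_le_sq_of_unit (H : Nice κ M V) (hf : T0 f) (h0 : ∀ x, 0 ≤ f x) (h1 : ∀ x, f x ≤ 1) :
    var V f ≤ (1 / 2) ^ 2 := by
  refine (var_le H hf (1 / 2)).trans ?_
  have h4 := ex_mono H ((hf.sub (T0.const (1 / 2))).pow 2) (T0.const ((1 / 2) ^ 2)) (fun x => by
    rw [← sq_abs]
    refine pow_le_pow_left₀ (abs_nonneg _) ?_ 2
    rw [abs_le]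
    constructor <;> linarith [h0 x, h1 x])
  rwa [ex_const H] at h4

/-- `|Cov_V(f,x)|² ≤ b κ^{-1/2} κ^{-1} E|∇f|` if `|f| ≤ b`. -/
theorem cov_l1_sq (H : Nice κ M V) (hf : Cc f) {b : ℝ} (hb : ∀ x, |f x| ≤ b) :
    ∑ i, cov V f (fun x => x i) ^ 2 ≤ b * ((√κ)⁻¹ * κ⁻¹) * ex V (fun x => √(gs f x)) :=
  cov_l1_sq' H hf ((abs_nonneg _).trans (hb 0)) (var_le_sq_of_abs H hf.t1.t0 hb)

end Pool.Agent.Lib.MP_8d00da_gt.h42k
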