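import Pool.Agent.Lib.MP_8d00da_gt.h42k.G49b
import Pool.Agent.Lib.MP_8d00da_gt.h42k.B1a

/-!
# (Z1) The Poincare inequality for the law of `Y_t = t X + √t g`
-/

namespace Pool.Agent.Lib.MP_8d00da_gt.h42k

open MeasureTheory Set Filter
open scoped Topology NNReal ENNReal ContDiff

set_option linter.unusedSectionVars false
set_option linter.unusedVariables false

variable {ι : Type*} [Fintype ι] [DecidableEq ι]

variable {κ M : ℝ} {V f Φ : (ι → ℝ) → ℝ}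

private theorem ZA2_e {t : ℝ} (ht : 0 < t) (x y : ι → ℝ) :
    Real.exp (-(sq y / (2 * t) - dt y x + t / 2 * sq x)) =
      Real.exp (-(t / 2 * sq x)) * Real.exp (-(pt gp (1 / t - 1) x y)) := by
  rw [← Real.exp_add]
  congr 1
  unfold pt gp
  rw [dt_comm y x]
  field_simp
  ring

/-- The conditional law of `Y_t` given `X = x`. -/
theorem gauss_EP {t : ℝ} (ht : 0 < t) (Φ : (ι → ℝ) → ℝ) (x : ι → ℝ) :
    ex gp (fun g => Φ fun i => t * x i + √t * g i) = EP gp (1 / t - 1) Φ x := by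
  have hs : 0 < √t := Real.sqrt_pos.2 ht
  have key : ∀ Ψ : (ι → ℝ) → ℝ,
      ∫ g : ι → ℝ, Ψ (fun i => t * x i + √t * g i) * Real.exp (-(gp g)) =
        (((√t) ^ Fintype.card ι)⁻¹ * Real.exp (-(t / 2 * sq x))) *
          ∫ y, Ψ y * Real.exp (-(pt gp (1 / t - 1) x y)) := by
    intro Ψ
    have e1 : ∫ y, Ψ y * Real.exp (-(sq y / (2 * t) - dt y x + t / 2 * sq x)) =
        Real.exp (-(t / 2 * sq x)) * ∫ y, Ψ y * Real.exp (-(pt gp (1 / t - 1) x y)) := by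
      rw [← integral_const_mul]
      refine integral_congr_ae (Eventually.of_forall fun y => ?_)
      simp only
      rw [ZA2_e ht x y]
      ring
    rw [inner_change Ψ ht x, e1, mul_assoc]
  have h1 := key Φ
  have h2 := key fun _ => 1
  simp only [one_mul] at h2
  unfold EP ex
  rw [h1, h2, mul_div_mul_left]
  positivity

theorem GE_eq_EP (V : (ι → ℝ) → ℝ) {t : ℝ} (ht : 0 < t) (Φ : (ι → ℝ) → ℝ) :
    GE V t Φ = ex V (EP gp (1 / t - 1) Φ) := by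
  unfold GE
  congr 1
  funext x
  exact gauss_EP ht Φ x

private theorem ZA2_N {t : ℝ} (ht : 0 < t) (x : ι → ℝ) :
    Nice (1 / t) (1 / t) (pt (gp : (ι → ℝ) → ℝ) (1 / t - 1) x) := by
  have h := (nice_gp (ι := ι)).ptn (t := 1 / t - 1) (by
    have : 0 < 1 / t := by positivity
    linarith) x
  have e : (1 : ℝ) + (1 / t - 1) = 1 / t := by ring
  rwa [e] at h

/-- Gaussian integration by parts: `Cov(Φ, y_i) = t E ∂_i Φ`. -/
theorem gauss_CP {t : ℝ} (ht : 0 < t) (hΦ : T1 Φ) (i : ι) (x : ι → ℝ) :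
    CP gp (1 / t - 1) Φ (fun y => y i) x = t * EP gp (1 / t - 1) (pd i Φ) x := by
  have H := ZA2_N ht x
  have hpd : ∀ y, pd i (pt (gp : (ι → ℝ) → ℝ) (1 / t - 1) x) y = 1 / t * y i - x i := by
    intro y
    rw [pd_pt ((nice_gp (ι := ι)).c2.differentiable (by norm_num))]
    have e0 : (gp : (ι → ℝ) → ℝ) = fun x => (1 / 2) * sq x := by
      funext x
      unfold gp
      ring
    have e1 : pd i (gp : (ι → ℝ) → ℝ) y = y i := by
      rw [e0, pd_cmul ((contDiff_sq (n := 1)).differentiable (by norm_num)), pd_sq]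
      ring
    rw [e1]
    ring
  have hpf : pd i (pt (gp : (ι → ℝ) → ℝ) (1 / t - 1) x) = fun y => 1 / t * y i - x i :=
    funext hpd
  have h1 := ibp H hΦ i
  have h2 := ibp H (T1.const (ι := ι) 1) i
  have h3 : ex (pt (gp : (ι → ℝ) → ℝ) (1 / t - 1) x) (pd i fun _ => (1 : ℝ)) = 0 := by
    have : pd i (fun _ : ι → ℝ => (1 : ℝ)) = fun _ => 0 := funext fun y => pd_const 1 i y
    rw [this, ex_const H]
  rw [h3, hpf] at h2
  rw [hpf] at h1
  simp only [one_mul] at h2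
  have hc : T0 (fun y : ι → ℝ => y i) := T0.coord i
  rw [ex_sub H (hc.cmul _) (T0.const _), ex_cmul, ex_const H] at h2
  have e4 : (fun y : ι → ℝ => Φ y * (1 / t * y i - x i)) =
      fun y => 1 / t * (Φ y * y i) - x i * Φ y := by
    funext y
    ring
  rw [e4, ex_sub H ((hΦ.t0.mul hc).cmul _) (hΦ.t0.cmul _), ex_cmul, ex_cmul] at h1
  unfold CP cov EP
  rw [h1]
  have h5 : ex (pt (gp : (ι → ℝ) → ℝ) (1 / t - 1) x) (fun y => y i) = t * x i := by
    have : t * (1 / t * ex (pt (gp : (ι → ℝ) → ℝ) (1 / t - 1) x) (fun y => y i)) = t * x i := by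
      rw [← sub_eq_zero.1 h2.symm]
    rwa [← mul_assoc, mul_one_div_cancel ht.ne', one_mul] at this
  rw [h5]
  field_simp

/-- `T1` for posterior expectations. -/
theorem EP_t1 (H : Nice κ M V) (hf : T0 f) {t : ℝ} (ht : -κ < t) : T1 (EP V t f) := by
  refine ⟨?_, (EP_t0 H hf ht).pg, fun i => ?_⟩
  · rw [contDiff_iff_contDiffAt]
    intro y
    have h1 := (EP_contDiffAt H hf ht y).of_le (m := 1) (by
      exact_mod_cast (le_top : (1 : ℕ∞) ≤ ⊤))
    have h3 : ContDiffAt ℝ 1 (fun z : ι → ℝ => ((t, z) : ℝ × (ι → ℝ))) y :=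
      contDiffAt_const.prodMk contDiffAt_id
    exact ContDiffAt.comp (g := fun p : ℝ × (ι → ℝ) => EP V p.1 f p.2)
      (f := fun z : ι → ℝ => ((t, z) : ℝ × (ι → ℝ))) y h1 h3
  · have e : pd i (EP V t f) = CP V t f (fun x => x i) := funext fun y => EP_pd H hf ht y i
    rw [e]
    exact (CP_t0 H hf (T0.coord i) ht).pg

/-- **The Poincare inequality for `Y_t`**, constant `C t² + t`. -/
theorem GE_pi (H : Nice κ M V) {C : ℝ} (hC : 0 ≤ C) (hP : PI V C) {t : ℝ} (ht : 0 < t)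
    (hΦ : T1 Φ) :
    GE V t (fun y => Φ y ^ 2) - GE V t Φ ^ 2 ≤ (C * t ^ 2 + t) * GE V t (gs Φ) := by
  have hG := nice_gp (ι := ι)
  have ht' : -(1 : ℝ) < 1 / t - 1 := by
    have : 0 < 1 / t := by positivity
    linarith
  obtain ⟨ψ, hψ⟩ : ∃ ψ : (ι → ℝ) → ℝ, ψ = EP gp (1 / t - 1) Φ := ⟨_, rfl⟩
  have hψ1 : T1 ψ := by
    rw [hψ]
    exact EP_t1 hG hΦ.t0 ht'
  have hΦ2 : T0 (fun y => Φ y ^ 2) := hΦ.t0.pow 2
  have t2 : T0 (EP gp (1 / t - 1) fun y => Φ y ^ 2) := EP_t0 hG hΦ2 ht'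
  have tg : T0 (EP gp (1 / t - 1) (gs Φ)) := EP_t0 hG hΦ.gst0 ht'
  -- conditional variance
  have hvar : ∀ x, EP gp (1 / t - 1) (fun y => Φ y ^ 2) x ≤
      ψ x ^ 2 + t * EP gp (1 / t - 1) (gs Φ) x := by
    intro x
    have h1 := (ZA2_N ht x).pi Φ hΦ
    rw [var_eq', one_div_one_div] at h1
    have h2 : ψ x = ex (pt gp (1 / t - 1) x) Φ := by
      rw [hψ]
      rfl
    rw [h2]
    show ex (pt gp (1 / t - 1) x) (fun y => Φ y ^ 2) ≤ ex (pt gp (1 / t - 1) x) Φ ^ 2 +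
      t * ex (pt gp (1 / t - 1) x) (gs Φ)
    linarith
  -- the gradient of `ψ`
  have hgs : ∀ x, gs ψ x ≤ t ^ 2 * EP gp (1 / t - 1) (gs Φ) x := by
    intro x
    have Hx := ZA2_N ht x
    have e1 : ∀ i, pd i ψ x ^ 2 ≤ t ^ 2 * ex (pt gp (1 / t - 1) x) (fun y => pd i Φ y ^ 2) := by
      intro i
      rw [hψ, EP_pd hG hΦ.t0 ht' x i, gauss_CP ht hΦ i x, mul_pow]
      exact mul_le_mul_of_nonneg_left (ex_sq_le Hx (hΦ.pdt0 i)) (sq_nonneg t)
    unfold gs EP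
    rw [ex_sum Hx Finset.univ fun i _ => (hΦ.pdt0 i).pow 2, Finset.mul_sum]
    exact Finset.sum_le_sum fun i _ => e1 i
  have h1 := ex_mono H t2 ((hψ1.t0.pow 2).add (tg.cmul t)) hvar
  rw [ex_add H (hψ1.t0.pow 2) (tg.cmul t), ex_cmul] at h1
  have h2 := hP ψ hψ1
  rw [var_eq'] at h2
  have h3 := ex_mono H hψ1.gst0 (tg.cmul (t ^ 2)) hgs
  rw [ex_cmul] at h3
  have h4 := mul_le_mul_of_nonneg_left h3 hC
  rw [GE_eq_EP V ht, GE_eq_EP V ht, GE_eq_EP V ht]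
  have h5 : ex V (EP gp (1 / t - 1) Φ) = ex V ψ := by rw [hψ]
  rw [h5]
  have h6 : (C * t ^ 2 + t) * ex V (EP gp (1 / t - 1) (gs Φ)) =
      C * (t ^ 2 * ex V (EP gp (1 / t - 1) (gs Φ))) + t * ex V (EP gp (1 / t - 1) (gs Φ)) := by
    ring
  rw [h6]
  linarith

end Pool.Agent.Lib.MP_8d00da_gt.h42k
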