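import Pool.Agent.Lib.MP_8d00da_gt.h42z.ZA1
import Pool.Agent.Lib.MP_8d00da_gt.h42z.ZA2

/-!
# (Z3) From the Poincare inequality to the `L¹` inequality (Buser, Ledoux), nice potentials
-/

namespace Pool.Agent.Lib.MP_8d00da_gt.h42k

open MeasureTheory Set Filter
open scoped Topology NNReal ENNReal ContDiff

set_option linter.unusedSectionVars false
set_option linter.unusedVariables false

variable {ι : Type*} [Fintype ι] [DecidableEq ι]

variable {κ M : ℝ} {V f Φ : (ι → ℝ) → ℝ}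

private theorem ZA3_sum (V f : (ι → ℝ) → ℝ) (u : ℝ) (y : ι → ℝ) :
    ∑ i, CP V u f (fun x => x i) y * CP V u f (fun x => x i) y =
      ∑ i, cov (pt V u y) f (fun x => x i) ^ 2 :=
  Finset.sum_congr rfl fun i _ => (pow_two _).symm

private theorem ZA3_der {κ u : ℝ} (h : 0 < κ + u) :
    HasDerivAt (fun u => (√(κ + u))⁻¹) (-(1 / 2) * ((√(κ + u))⁻¹ * (κ + u)⁻¹)) u := by
  have h1 : HasDerivAt (fun u : ℝ => κ + u) 1 u := (hasDerivAt_id u).const_add κ
  have h2 := (h1.sqrt h.ne').fun_inv (Real.sqrt_pos.2 h).ne'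
  refine h2.congr_deriv ?_
  have h3 : √(κ + u) ^ 2 = κ + u := Real.sq_sqrt h.le
  rw [h3]
  have h4 : 0 < √(κ + u) := Real.sqrt_pos.2 h
  field_simp

/-- The posterior variance of `f` at time `s` is at most `2 b s^{-1/2} E|∇f|`, if all variances
of `f` are at most `b²`. -/
theorem GE_CP_l1' (H : Nice κ M V) (hf : Cc f) {b : ℝ} (hb0 : 0 ≤ b)
    (hb : ∀ (κ M : ℝ) (W : (ι → ℝ) → ℝ), Nice κ M W → var W f ≤ b ^ 2) {s : ℝ} (hs : 0 < s) :
    GE V s (fun y => CP V s f f y) ≤ 2 * b * (√s)⁻¹ * ex V (fun x => √(gs f x)) := by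
  have hκ := H.kpos
  have hf0 := hf.t1.t0
  have hg0 : T0 (fun x => √(gs f x)) := hf.t1.gst0.sqrt
  obtain ⟨E, hE⟩ : ∃ E : ℝ, E = ex V (fun x => √(gs f x)) := ⟨_, rfl⟩
  have hE0 : 0 ≤ E := by
    rw [hE]
    exact ex_nonneg V fun x => Real.sqrt_nonneg _
  rw [← hE]
  have hrate : ∀ u : ℝ, 0 < u →
      GE V u (fun y => ∑ i, CP V u f (fun x => x i) y * CP V u f (fun x => x i) y) ≤
        b * ((√(κ + u))⁻¹ * (κ + u)⁻¹) * E := by
    intro u hu
    have hκu : -κ < u := by linarith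
    have t1 : T0 (fun y => ∑ i, CP V u f (fun x => x i) y * CP V u f (fun x => x i) y) :=
      T0.sum _ fun i _ => (CP_t0 H hf0 (T0.coord i) hκu).mul (CP_t0 H hf0 (T0.coord i) hκu)
    have t2 : T0 (EP V u fun x => √(gs f x)) := EP_t0 H hg0 hκu
    have h1 := GE_mono H t1 (t2.cmul (b * ((√(κ + u))⁻¹ * (κ + u)⁻¹))) u (fun y => by
      rw [ZA3_sum]
      exact cov_l1_sq' (H.ptn hκu y) hf hb0 (hb _ _ _ (H.ptn hκu y)))
    rw [GE_cmul] at h1
    have h2 : GE V u (EP V u fun x => √(gs f x)) = E := by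
      rw [hE]
      exact GE_EP H hg0 hu.le
    rwa [h2] at h1
  -- the monotone function
  obtain ⟨F, hF⟩ : ∃ F : ℝ → ℝ, F = fun u => GE V u (fun y => CP V u f f y) := ⟨_, rfl⟩
  have hFd : ∀ u, 0 < u → HasDerivAt F
      (- GE V u (fun y => ∑ i, CP V u f (fun x => x i) y * CP V u f (fun x => x i) y)) u := by
    intro u hu
    rw [hF]
    exact GE_CP_hasDerivAt H hf0 hf0 hu
  have hGd : ∀ u, 0 < u → HasDerivAt (fun u => F u - 2 * b * E * (√(κ + u))⁻¹)
      (- GE V u (fun y => ∑ i, CP V u f (fun x => x i) y * CP V u f (fun x => x i) y) -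
        2 * b * E * (-(1 / 2) * ((√(κ + u))⁻¹ * (κ + u)⁻¹))) u := fun u hu =>
    (hFd u hu).sub ((ZA3_der (by linarith)).const_mul _)
  have hmono : MonotoneOn (fun u => F u - 2 * b * E * (√(κ + u))⁻¹) (Ioi 0) := by
    refine monotoneOn_of_deriv_nonneg (convex_Ioi 0) ?_ ?_ ?_
    · intro u hu
      exact (hGd u hu).continuousAt.continuousWithinAt
    · rw [interior_Ioi]
      intro u hu
      exact (hGd u hu).differentiableAt.differentiableWithinAt
    · rw [interior_Ioi]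
      intro u hu
      rw [(hGd u hu).deriv]
      have := hrate u hu
      linarith
  have hfin : ∀ T : ℝ, 0 < T → F T ≤ ex V (gs f) * (κ + T)⁻¹ := by
    intro T hT
    have hκT : -κ < T := by linarith
    have t1 : T0 (fun y => CP V T f f y) := CP_t0 H hf0 hf0 hκT
    have t2 : T0 (EP V T (gs f)) := EP_t0 H hf.t1.gst0 hκT
    have h1 := GE_mono H t1 (t2.cmul (1 / (κ + T))) T (fun y => (H.ptn hκT y).pi f hf.t1)
    rw [GE_cmul, GE_EP H hf.t1.gst0 hT.le] at h1
    rw [hF]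
    simp only
    rw [one_div] at h1
    linarith
  have key : ∀ T : ℝ, s ≤ T → F s ≤ 2 * b * E * (√(κ + s))⁻¹ + ex V (gs f) * (κ + T)⁻¹ := by
    intro T hT
    have hT0 : 0 < T := lt_of_lt_of_le hs hT
    have h1 := hmono (show s ∈ Ioi (0 : ℝ) from hs) (show T ∈ Ioi (0 : ℝ) from hT0) hT
    simp only at h1
    have h2 := hfin T hT0
    have h3 : 0 ≤ 2 * b * E * (√(κ + T))⁻¹ := by positivity
    linarith
  have lim : Tendsto (fun T : ℝ => 2 * b * E * (√(κ + s))⁻¹ + ex V (gs f) * (κ + T)⁻¹) atTop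
      (𝓝 (2 * b * E * (√(κ + s))⁻¹ + ex V (gs f) * 0)) :=
    tendsto_const_nhds.add
      ((tendsto_inv_atTop_zero.comp (tendsto_atTop_add_const_left _ κ tendsto_id)).const_mul _)
  rw [mul_zero, add_zero] at lim
  have h1 : F s ≤ 2 * b * E * (√(κ + s))⁻¹ :=
    ge_of_tendsto lim ((eventually_ge_atTop s).mono key)
  have h2 : (√(κ + s))⁻¹ ≤ (√s)⁻¹ := by
    have h3 : 0 < √s := Real.sqrt_pos.2 hs
    exact inv_anti₀ h3 (Real.sqrt_le_sqrt (by linarith))
  have h3 := mul_le_mul_of_nonneg_left h2 (show 0 ≤ 2 * b * E by positivity)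
  rw [hF] at h1
  simp only at h1
  calc GE V s (fun y => CP V s f f y) ≤ _ := h1
    _ ≤ _ := h3
    _ = _ := by ring

/-- `Var f ≤ (C s + 2) E Var_{s,Y} f`, from the Poincare inequality with constant `C`. -/
theorem var_le_GE_CP (H : Nice κ M V) {C : ℝ} (hC : 0 ≤ C) (hP : PI V C) (hf : T0 f) {s : ℝ}
    (hs : 0 < s) : var V f ≤ (C * s + 2) * GE V s (fun y => CP V s f f y) := by
  have hκ := H.kpos
  have hκs : -κ < s := by linarith
  have tc : T0 (fun y => CP V s f f y) := CP_t0 H hf hf hκs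
  have te : T0 (EP V s f) := EP_t0 H hf hκs
  have tff : T0 (fun x => f x * f x) := hf.mul hf
  have h1 := GE_pi H hC hP hs (EP_t1 H hf hκs)
  rw [GE_EP H hf hs.le] at h1
  have hgs : ∀ y, gs (EP V s f) y ≤ s⁻¹ * CP V s f f y := by
    intro y
    have Hy := H.ptn hκs y
    have h2 := CLe.cov_sq Hy (s6_CLe_kappa Hy) hf
    have h3 : gs (EP V s f) y = ∑ i, cov (pt V s y) f (fun x => x i) ^ 2 := by
      unfold gs
      refine Finset.sum_congr rfl fun i _ => ?_
      rw [EP_pd H hf hκs y i]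
      rfl
    rw [h3]
    refine h2.trans ?_
    have h4 : 0 ≤ var (pt V s y) f := var_nonneg Hy hf
    have h5 : 1 / (κ + s) ≤ s⁻¹ := by
      rw [one_div]
      exact inv_anti₀ hs (by linarith)
    exact mul_le_mul_of_nonneg_right h5 h4
  have h2 := GE_mono H (EP_t1 H hf hκs).gst0 (tc.cmul s⁻¹) s hgs
  rw [GE_cmul] at h2
  have h3 : GE V s (fun y => CP V s f f y) =
      ex V (fun x => f x * f x) - GE V s (fun y => EP V s f y ^ 2) := by
    have e1 : (fun y => CP V s f f y) =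
        fun y => EP V s (fun x => f x * f x) y - EP V s f y ^ 2 := by
      funext y
      rw [CP_eq]
      ring
    rw [e1, GE_sub H (EP_t0 H tff hκs) (te.pow 2)]
    congr 1
    exact GE_EP H tff hs.le
  have h4 : var V f = ex V (fun x => f x * f x) - ex V f ^ 2 := by
    unfold var cov
    ring
  have h5 : (C * s ^ 2 + s) * GE V s (gs (EP V s f)) ≤
      (C * s + 1) * GE V s (fun y => CP V s f f y) := by
    have h6 := mul_le_mul_of_nonneg_left h2 (show 0 ≤ C * s ^ 2 + s by positivity)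
    refine h6.trans (le_of_eq ?_)
    field_simp
  rw [h4]
  have h7 : (C * s + 2) * GE V s (fun y => CP V s f f y) =
      (C * s + 1) * GE V s (fun y => CP V s f f y) + GE V s (fun y => CP V s f f y) := by ring
  rw [h7]
  linarith

/-- Buser-Ledoux in terms of a bound `b²` for all variances of `f`. -/
theorem var_l1' (H : Nice κ M V) {C : ℝ} (hC : 0 < C) (hP : PI V C) (hf : Cc f) {b : ℝ}
    (hb0 : 0 ≤ b) (hb : ∀ (κ M : ℝ) (W : (ι → ℝ) → ℝ), Nice κ M W → var W f ≤ b ^ 2) :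
    var V f ≤ 6 * √C * b * ex V (fun x => √(gs f x)) := by
  have hs : 0 < C⁻¹ := inv_pos.2 hC
  have h1 := var_le_GE_CP H hC.le hP hf.t1.t0 hs
  have h2 := GE_CP_l1' H hf hb0 hb hs
  rw [mul_inv_cancel₀ hC.ne'] at h1
  have h3 : (√(C⁻¹))⁻¹ = √C := by rw [Real.sqrt_inv, inv_inv]
  rw [h3] at h2
  calc var V f ≤ (1 + 2) * GE V C⁻¹ (fun y => CP V C⁻¹ f f y) := h1
    _ ≤ (1 + 2) * (2 * b * √C * ex V (fun x => √(gs f x))) :=
        mul_le_mul_of_nonneg_left h2 (by norm_num)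
    _ = _ := by ring

/-- **Buser-Ledoux for nice potentials**: `Var f ≤ 6 √C |f|_∞ E|∇f|` for smooth compactly
supported `f`, from the Poincare inequality with constant `C`. -/
theorem var_l1 (H : Nice κ M V) {C : ℝ} (hC : 0 < C) (hP : PI V C) (hf : Cc f) {b : ℝ}
    (hb : ∀ x, |f x| ≤ b) : var V f ≤ 6 * √C * b * ex V (fun x => √(gs f x)) :=
  var_l1' H hC hP hf ((abs_nonneg _).trans (hb 0)) fun _ _ _ HW => var_le_sq_of_abs HW hf.t1.t0 hb

/-- Buser-Ledoux for functions with values in `[0,1]`: `Var f ≤ 3 √C E|∇f|`. -/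
theorem var_l1_unit (H : Nice κ M V) {C : ℝ} (hC : 0 < C) (hP : PI V C) (hf : Cc f)
    (h0 : ∀ x, 0 ≤ f x) (h1 : ∀ x, f x ≤ 1) :
    var V f ≤ 3 * √C * ex V (fun x => √(gs f x)) := by
  have h := var_l1' H hC hP hf (b := 1 / 2) (by norm_num) fun _ _ _ HW =>
    var_le_sq_of_unit HW hf.t1.t0 h0 h1
  calc var V f ≤ _ := h
    _ = _ := by ring

/-- The statement of `ZZ.buser`. -/
theorem buser' (H : Nice κ M V) {C : ℝ} (hC : 0 < C) (hP : PI V C) (hf : Cc f)
    (h0 : ∀ x, 0 ≤ f x) (h1 : ∀ x, f x ≤ 1) :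
    var V f ≤ 4 * √C * ex V (fun x => √(gs f x)) := by
  have h := var_l1_unit H hC hP hf h0 h1
  have h2 : 0 ≤ √C * ex V (fun x => √(gs f x)) :=
    mul_nonneg (Real.sqrt_nonneg _) (ex_nonneg V fun x => Real.sqrt_nonneg _)
  linarith

end Pool.Agent.Lib.MP_8d00da_gt.h42k
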